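import Pool.Agent.Helper30.PPB.BCO0
import Pool.Agent.Helper38.WY.Goals4

/-! Packet WY-Z_CO0 (project WY, MP_fc6b1e_nt): the core, `χ₀ = 1`, condition `SigT`. -/

set_option autoImplicit false

namespace Pool.Agent.Helper55.WY

open NumberField Polynomial Module IsDedekindDomain TensorProduct Pool.Agent.Helper51.SigLeo
open Pool.Agent.Helper51.RP Pool.Agent.Helper77.PPO Pool.Agent.Helper77.PPB
open Pool.Agent.Helper11.LE (HD Cyc)
open Pool.Agent.Helper42.RD (TSet)
open Pool.Agent.Helper38.WY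
open Pool.Agent.Helper79.RD (eq_on_sup mem_of_fixed map_sup_mem map_mem_normal)
open Pool.Agent.Helper13.RL
open Pool.Agent.Helper30.PPB (finrank_ext deg_sup)
open Pool.Agent.Helper42.PW
open Pool.Agent.Helper38.FD (Chr)
open Pool.Agent.Helper77.RL (SplitAt NoTor)

theorem z_co0 (h1 : Z_P10) : Pool.Agent.Helper38.WY.Z_CO0 := by
  intro p hpf K _ _ ιinf ιp Lg S hcl n L F M₂ _ _ _ hgL hgF _ cLM hLF hdL hdF ε a hcyc hom ha
    s hs hsM hgen hsel Hf _ _ χ η hχ hη hchar
  have hp := hpf.out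
  have hε := hcyc.prim
  have hF0 : 0 < finrank K F := by rw [hdF]; exact pow_pos hp.pos _
  have hfF : FiniteDimensional K F := FiniteDimensional.of_finrank_pos hF0
  have hL0 : 0 < finrank K L := by rw [hdL]; exact pow_pos hp.pos n
  have hfL : FiniteDimensional K L := FiniteDimensional.of_finrank_pos hL0
  have hfM : FiniteDimensional K M₂ := FiniteDimensional.right ℚ K M₂
  have hnF : Normal K F := inferInstance
  have hnΩ : Normal K (AlgebraicClosure K) := inferInstance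
  have hgΩ : IsGalois K (AlgebraicClosure K) := inferInstance
  have hLM : L ≤ M₂ := fun x hx => by
    have h1 : ((algebraMap L M₂ ⟨x, hx⟩ : M₂) : AlgebraicClosure K) = x := cLM ⟨x, hx⟩
    have h2 : ((algebraMap L M₂ ⟨x, hx⟩ : M₂) : AlgebraicClosure K) ∈ M₂ :=
      (algebraMap L M₂ ⟨x, hx⟩).2
    rwa [h1] at h2
  have tKLM : IsScalarTower K L M₂ := IsScalarTower.of_algebraMap_eq fun x =>
    Subtype.ext (cLM (algebraMap K L x)).symm
  have hcop : (finrank L M₂).Coprime p := (Pool.Agent.Helper90.LE.l_cyc p L M₂ ε hcyc).2.1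
  have hfLM : FiniteDimensional L M₂ := FiniteDimensional.right K L M₂
  have hdM : finrank K M₂ = p ^ n * finrank L M₂ := by
    rw [← Module.finrank_mul_finrank K L M₂, hdL]
  obtain ⟨H₁, hH₁⟩ : ∃ F' : IntermediateField K (AlgebraicClosure K), F' = M₂ ⊔ F := ⟨_, rfl⟩
  have hMH₁ : M₂ ≤ H₁ := by rw [hH₁]; exact le_sup_left
  have hFH₁ : F ≤ H₁ := by rw [hH₁]; exact le_sup_right
  have hfH₁ : FiniteDimensional K H₁ := by rw [hH₁]; infer_instance
  have hnfH₁ : NumberField H₁ := NumberField.of_module_finite K H₁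
  -- the element s
  have hsH₁ : s ∈ H₁ := by
    rw [hH₁]
    exact mem_of_fixed fun g hg =>
      hgen g (fun y hy => hg y ((le_sup_right : F ≤ M₂ ⊔ F) hy))
        (fun y hy => hg y ((le_sup_left : M₂ ≤ M₂ ⊔ F) hy))
  -- algebras
  let _ : Algebra L F := (IntermediateField.inclusion hLF).toRingHom.toAlgebra
  let _ : Algebra M₂ H₁ := (IntermediateField.inclusion hMH₁).toRingHom.toAlgebra
  let _ : Algebra F H₁ := (IntermediateField.inclusion hFH₁).toRingHom.toAlgebra
  have cLF : ∀ x : L, ((algebraMap L F x : F) : AlgebraicClosure K) = x := fun _ => rfl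
  have tKLF : IsScalarTower K L F := IsScalarTower.of_algebraMap_eq fun x => rfl
  have tKMH₁ : IsScalarTower K M₂ H₁ := IsScalarTower.of_algebraMap_eq fun x => rfl
  have hfLF : FiniteDimensional L F := FiniteDimensional.right K L F
  -- degrees
  have hdLF : finrank L F = p := finrank_rel hdL (pow_pos hp.pos _) hdF (by rw [pow_succ])
  have hdM₂H₁ : finrank M₂ H₁ = p := by
    have h1 := Module.finrank_mul_finrank K M₂ H₁
    have h2 : finrank K (M₂ ⊔ F : IntermediateField K (AlgebraicClosure K)) =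
        finrank K M₂ * finrank M₂ H₁ := by
      rw [h1, hH₁]
    exact deg_sup hp hLF hLM hdL hdF hdM hcop finrank_pos _ h2
  have hgLF : IsGalois L F := IsGalois.tower_top_of_isGalois K L F
  -- automorphisms
  have haM : (a : M₂) ≠ 0 := ha
  have haΩ : ((a : M₂) : AlgebraicClosure K) ≠ 0 := fun h => haM (Subtype.ext h)
  have hεΩ : IsPrimitiveRoot ((ε : M₂) : AlgebraicClosure K) p :=
    hε.map_of_injective (f := algebraMap M₂ (AlgebraicClosure K)) (RingHom.injective _)
  obtain ⟨gK, hgM, hgs⟩ := exists_gK (K := K) hp hεΩ ε.2 (a : M₂).2 haΩ hs hsM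
  have hgL' : ∀ x ∈ L, gK x = x := fun x hx => hgM x (hLM hx)
  have hgM' : ∀ x ∈ M₂, gK.symm x = x := fun x hx => by
    rw [AlgEquiv.symm_apply_eq]; exact (hgM x hx).symm
  have st1 : ∀ x ∈ H₁, gK x ∈ H₁ := by
    rw [hH₁]; exact map_sup_mem gK fun x hx => by rw [hgM x hx]; exact hx
  have st2 : ∀ x ∈ H₁, gK.symm x ∈ H₁ := by
    rw [hH₁]; exact map_sup_mem gK.symm fun x hx => by rw [hgM' x hx]; exact hx
  have st3 : ∀ (g : AlgebraicClosure K ≃ₐ[K] AlgebraicClosure K), ∀ x ∈ F, g x ∈ F :=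
    fun g x hx => map_mem_normal g hx
  obtain ⟨γ, hγ⟩ : ∃ γ : F ≃ₐ[L] F, γ = resL cLF gK (st3 gK) (st3 gK.symm) hgL' := ⟨_, rfl⟩
  obtain ⟨γ₁, hγ₁⟩ : ∃ γ₁ : H₁ ≃ₐ[M₂] H₁,
    γ₁ = resL (fun x => rfl) gK st1 st2 hgM := ⟨_, rfl⟩
  have cγ : ∀ x : F, ((γ x : F) : AlgebraicClosure K) = gK x := fun x => by rw [hγ]; rfl
  have cγ₁ : ∀ x : H₁, ((γ₁ x : H₁) : AlgebraicClosure K) = gK x := fun x => by rw [hγ₁]; rfl
  have pγ : ∀ (i : ℕ) (x : F), (((γ ^ i) x : F) : AlgebraicClosure K) = (gK ^ i) x :=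
    fun i x => by rw [hγ, resL_pow]
  have hgF1 : ¬ ∀ y ∈ F, gK y = y := by
    intro e1
    have e3 := hgen gK e1 hgM
    rw [hgs] at e3
    have hs0 : s ≠ 0 := by
      intro h0
      rw [h0, zero_pow hp.ne_zero] at hs
      exact haΩ hs.symm
    have e4 : ((ε : M₂) : AlgebraicClosure K) = 1 := by
      have : (((ε : M₂) : AlgebraicClosure K) - 1) * s = 0 := by rw [sub_mul, e3, one_mul, sub_self]
      rcases mul_eq_zero.1 this with h' | h'
      · exact sub_eq_zero.1 h'
      · exact absurd h' hs0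
    exact hεΩ.ne_one hp.one_lt e4
  have hcard : Nat.card (F ≃ₐ[L] F) = p := by
    rw [IsGalois.card_aut_eq_finrank, hdLF]
  have hfin : Finite (F ≃ₐ[L] F) := Nat.finite_of_card_ne_zero (by rw [hcard]; exact hp.ne_zero)
  have hγp : γ ^ p = 1 := by rw [← hcard]; exact pow_card_eq_one'
  have hγ1 : γ ≠ 1 := by
    intro h
    apply hgF1
    intro y hy
    have e2 := AlgEquiv.congr_fun h ⟨y, hy⟩
    have e3 := cγ ⟨y, hy⟩
    rw [e2] at e3
    exact e3.symm
  have hγo : orderOf γ = p := orderOf_eq_prime hγp hγ1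
  have hgFp : ∀ y ∈ F, (gK ^ p) y = y := by
    intro y hy
    have e1 := pγ p ⟨y, hy⟩
    rw [hγp] at e1
    exact e1.symm
  -- the data
  have hclL : PlaceClosed (above (TSet ιinf ιp S) : Set (L →+* ℂ_[p])) := by
    intro σ τ hστ
    exact hcl _ _ fun x => hστ (algebraMap K L x)
  have hHD : HDataW (p := p) L L F M₂ H₁ 1 (1 : L ≃ₐ[L] L) γ (1 : F ≃ₐ[L] F) γ₁
      (above (TSet ιinf ιp S) : Set (L →+* ℂ_[p])) ε a ⟨s, hsH₁⟩ :=
    { order := orderOf_one
      deg := Module.finrank_self L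
      degH := hdLF
      degH₁ := hdM₂H₁
      compat := fun x => Subtype.ext (cLM x)
      cop := hcop
      gal := hcyc.gal
      prim := hε
      ne := ha
      pow := Subtype.ext hs
      γs := by
        apply Subtype.ext
        rw [cγ₁]
        exact hgs
      ext := fun y => by
        apply Subtype.ext
        rw [cγ₁]
        exact (cγ y).symm
      γM := fun x => γ.commutes x
      γo := hγo
      δM := fun x => rfl
      δo := orderOf_one
      comm := fun y => rfl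
      closed := hclL }
  have hsel' : ∀ x : (L)ˣ,
      (∀ W : HeightOneSpectrum (𝓞 M₂), LocW p W a (algebraMap L M₂ (x : L))) →
      (∀ τ ∈ (above (above (TSet ιinf ιp S) : Set (L →+* ℂ_[p])) : Set (M₂ →+* ℂ_[p])),
        SigT p τ ε a (algebraMap L M₂ (x : L))) → Pw p x := by
    intro x h1 h2
    refine hsel x h1 fun τ hτ => h2 τ ?_
    show (τ.comp (algebraMap L M₂)).comp (algebraMap K L) ∈ TSet ιinf ιp S
    rw [RingHom.comp_assoc, ← IsScalarTower.algebraMap_eq K L M₂]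
    exact hτ
  -- the characters
  have hHf : Hf ≤ F := by
    intro y hy
    apply mem_of_fixed
    intro g hg
    have e1 : χ (AlgEquiv.restrictNormalHom Hf g) = 1 := by
      rw [hchar g, res_one_iff.2 hg, map_one]
    have e2 : AlgEquiv.restrictNormalHom Hf g = 1 := hχ (by rw [e1, map_one])
    exact res_one_iff.1 e2 y hy
  have hηp : (η (AlgEquiv.restrictNormalHom F gK)) ^ p = 1 := by
    rw [← map_pow, ← map_pow, res_one_iff.2 hgFp, map_one]
  have hη1 : η (AlgEquiv.restrictNormalHom F gK) ≠ 1 := by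
    intro h1
    obtain ⟨g, hg1, hg2⟩ := hη
    apply hg2
    let g' : F ≃ₐ[L] F := AlgEquiv.ofRingEquiv (f := (g : F ≃+* F)) fun x => hg1 _ x.2
    obtain ⟨i, hi⟩ : ∃ i : ℕ, γ ^ i = g' := by
      have h2 : g' ∈ Submonoid.powers γ := mem_powers_of_prime_card hcard hγ1
      exact h2
    have h3 : g = (AlgEquiv.restrictNormalHom F gK) ^ i := by
      rw [← map_pow]
      ext x
      have h4 := AlgEquiv.congr_fun hi x
      have h5 := pγ i x
      rw [h4] at h5
      have h6 := AlgEquiv.restrictNormalHom_apply F (gK ^ i) x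
      exact h5.trans h6.symm
    rw [h3, map_pow, h1, one_pow]
  have hφp : IsPrimitiveRoot ((η (AlgEquiv.restrictNormalHom F gK) : ℂ_[p]ˣ) : ℂ_[p]) p := by
    have e1 : orderOf (η (AlgEquiv.restrictNormalHom F gK)) = p := orderOf_eq_prime hηp hη1
    have e2 : orderOf ((η (AlgEquiv.restrictNormalHom F gK) : ℂ_[p]ˣ) : ℂ_[p]) = p := by
      rw [orderOf_units, e1]
    have e3 := IsPrimitiveRoot.orderOf ((η (AlgEquiv.restrictNormalHom F gK) : ℂ_[p]ˣ) : ℂ_[p])
    rwa [e2] at e3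
  -- the conclusion
  obtain ⟨i, hi⟩ : ∃ i : Hf →+* F, ∀ x : Hf, ((i x : F) : AlgebraicClosure K) = x :=
    ⟨(IntermediateField.inclusion hHf).toRingHom, fun x => rfl⟩
  have heq : ∀ (g : AlgebraicClosure K ≃ₐ[K] AlgebraicClosure K) (g' : F ≃ₐ[L] F),
      (∀ x : F, ((g' x : F) : AlgebraicClosure K) = g x) → ∀ x : Hf,
      g' (i x) = i (AlgEquiv.restrictNormalHom Hf g x) := by
    intro g g' hg x
    apply Subtype.ext
    rw [hg, hi, hi, AlgEquiv.restrictNormalHom_apply]
  have hnfHf : NumberField Hf := NumberField.of_module_finite K Hf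
  intro x hx
  apply bc_inj (ups i) (ups_inj i)
  rw [map_zero]
  refine h1 p Lg L F M₂ H₁ γ γ₁
    (above (TSet ιinf ιp S) : Set (L →+* ℂ_[p])) ε a ⟨s, hsH₁⟩ hHD hsel' _ hφp _ ?_ ?_
  · rw [ups_equiv i (AlgEquiv.restrictNormalHom Hf gK) γ (heq gK γ cγ),
      Pool.Agent.Helper50.RS.eig_eChi, map_smul, hchar]
  · intro τ' hτ'
    rw [log_ups]
    apply hx
    obtain ⟨σ, hσ⟩ := exists_lift_embedding ιp (τ'.comp i)
    obtain ⟨σ₀, g1, g2⟩ := hτ'
    refine ⟨σ, ?_, ?_⟩
    · have g3 : σ.comp (algebraMap K Hf) = σ₀ := by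
        apply Pool.Agent.Helper50.RS.comp_inj ιp
        show ιp.comp (σ.comp (algebraMap K _)) = ιp.comp σ₀
        rw [← g2, ← RingHom.comp_assoc, hσ]
        ext c
        exact congrArg τ' (Subtype.ext (hi _))
      rw [g3]
      exact g1
    · rw [hσ]

end Pool.Agent.Helper55.WY
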